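import Pool.Agent.H10.Olig

namespace Pool.Agent.Results.MP_94c136_al.NotCompact
open Equiv Set Pool.Agent.H10.Olig

/-- Pointwise convergence on `S_∞`. -/
@[reducible] def tS : TopologicalSpace (Perm ℕ) :=
  TopologicalSpace.induced (fun g => (g : ℕ → ℕ)) inferInstance

/-- The subspace topology on a subgroup of `S_∞`. -/
@[reducible] def tG (G : Subgroup (Perm ℕ)) : TopologicalSpace G :=
  TopologicalSpace.induced Subtype.val tS

/-- Automorphisms that are homeomorphisms. -/
def Aut (G : Type) [Group G] [TopologicalSpace G] : Subgroup (MulAut G) where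
  carrier := {α | Continuous α ∧ Continuous α.symm}
  one_mem' := ⟨continuous_id, continuous_id⟩
  mul_mem' := fun h k => ⟨h.1.comp k.1, k.2.comp h.2⟩
  inv_mem' := fun h => ⟨h.2, h.1⟩

/-- Left cosets of open subgroups. -/
def OC (G : Type) [Group G] [TopologicalSpace G] : Set (Set G) :=
  {C | ∃ (U : OpenSubgroup G) (g : G), C = (fun u => g * u) '' (U : Set G)}

/-- Pointwise convergence of the action of `Aut G` on the open cosets. -/
@[reducible] def tA (G : Type) [Group G] [TopologicalSpace G] : TopologicalSpace (Aut G) :=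
  TopologicalSpace.induced (fun (α : Aut G) (C : OC G) => α.1 '' C.1)
    (@Pi.topologicalSpace _ (fun _ => Set G) fun _ => ⊥)

/-- `Aut G / Inn G`. -/
def Out (G : Type) [Group G] [TopologicalSpace G] : Type :=
  Aut G ⧸ (MulAut.conj : G →* MulAut G).range.subgroupOf (Aut G)

/-- The quotient topology on `Out G`. -/
@[reducible] def tO (G : Type) [Group G] [TopologicalSpace G] : TopologicalSpace (Out G) :=
  TopologicalSpace.coinduced QuotientGroup.mk (tA G)

theorem crit (G : Type) [Group G] [TopologicalSpace G] (N : OpenSubgroup G)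
    (hN : ∀ g, ∀ n ∈ N, g * n * g⁻¹ ∈ N) (α : ℕ → Aut G)
    (h : Function.Injective fun k => (α k).1 '' (N : Set G)) : ¬ @CompactSpace (Out G) (tO G) := by
  intro c
  letI := tA G
  letI := tO G
  letI : TopologicalSpace (Set G) := ⊥
  haveI : DiscreteTopology (Set G) := ⟨rfl⟩
  let F : Out G → Set G := Quotient.lift (fun β : Aut G => β.1 '' (N : Set G)) (by
    intro β γ e
    obtain ⟨g, hg⟩ := QuotientGroup.leftRel_apply.1 e
    have : γ.1 = β.1 * MulAut.conj g := by rw [hg]; simp
    rw [this]
    ext x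
    constructor
    · rintro ⟨n, hn, rfl⟩
      exact ⟨g⁻¹ * n * g⁻¹⁻¹, hN _ n hn, by simp [mul_assoc]⟩
    · rintro ⟨n, hn, rfl⟩
      exact ⟨_, hN g n hn, by simp⟩)
  have h0 : Continuous fun (α : Aut G) (C : OC G) => α.1 '' C.1 := continuous_induced_dom
  have hF : Continuous F := continuous_coinduced_dom.2
    ((continuous_apply (⟨N, N, 1, by simp⟩ : OC G)).comp h0)
  have := (isCompact_range hF).finite_of_discrete
  exact infinite_of_injective_forall_mem (s := range F) h
    (fun k => ⟨QuotientGroup.mk (α k), rfl⟩) this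

theorem cont {G : Subgroup (Perm ℕ)} {Y : Type} [TopologicalSpace Y] (U : Finset ℕ) (f : G → Y)
    (h : ∀ g g' : G, (∀ x ∈ U, g.1 x = g'.1 x) → f g = f g') : @Continuous _ _ (tG G) _ f := by
  letI := tS
  letI := tG G
  refine continuous_def.2 fun s _ => isOpen_iff_forall_mem_open.2 fun g hg =>
    ⟨⋂ x ∈ U, {g' | g'.1 x = g.1 x}, fun g' hg' => ?_, isOpen_biInter_finset fun x _ => ?_, by simp⟩
  · simp only [mem_iInter] at hg'
    rwa [mem_preimage, h g' g hg']
  · have : Continuous fun g : G => g.1 x := (continuous_apply x).comp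
      (continuous_induced_dom.comp continuous_induced_dom)
    exact (isOpen_discrete {g.1 x}).preimage this

theorem result : ∃ G : Subgroup (Perm ℕ), @IsClosed _ tS G ∧
    (∀ n, Finite (MulAction.orbitRel.Quotient G (Fin n → ℕ))) ∧
    ¬ @CompactSpace (@Out G _ (tG G)) (@tO G _ (tG G)) := by
  classical
  obtain ⟨P, hP⟩ := exP
  refine ⟨GP P, ?_, olig hP, ?_⟩
  · letI := tS
    refine isClosed_of_closure_subset fun π h => mem_of_local fun U => ?_
    obtain ⟨ρ, h1, h2⟩ := mem_closure_iff.1 h (⋂ x ∈ U, {g | π x = g x})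
      (isOpen_biInter_finset fun x _ => by
        have : Continuous fun g : Perm ℕ => g x := (continuous_apply x).comp continuous_induced_dom
        exact (isOpen_discrete {y | π x = y}).preimage this) (by simp)
    exact ⟨ρ, h2, by simpa using h1⟩
  letI := tG (GP P)
  let z : GP P := ⟨_, z_mem.1⟩
  have zc : ∀ g, g * z = z * g := fun g => Subtype.ext (z_comm g.2)
  have zz : z * z = 1 := Subtype.ext (swap_mul_self _ _)
  let f : ℕ → GP P → GP P := fun k g => if chi P k g then g else g * z
  have fc : ∀ k g, chi P k (f k g) ↔ chi P k g := fun k g => by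
    simp only [f]; split_ifs with h
    · rfl
    · exact (chi_mul g.2 z.2 k).trans (by have := (z_mem (P := P)).2 k; tauto)
  have ff : ∀ k g, f k (f k g) = g := fun k g => by
    conv_lhs => simp only [f]
    by_cases h : chi P k g
    · simp [h]
    · have := (fc k g).not.2 h
      simp only [f, h, if_false] at this ⊢
      rw [if_neg this, mul_assoc, zz, mul_one]
  have fm : ∀ k g g', f k (g * g') = f k g * f k g' := fun k g g' => by
    have := chi_mul g.2 g'.2 k
    simp only [f, Subgroup.coe_mul, this]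
    by_cases h : chi P k g <;> by_cases h' : chi P k g' <;> simp only [h, h', iff_self, if_true,
      if_false, iff_true, iff_false, not_true, mul_assoc]
    · rw [zc]
    · rw [← mul_assoc z, ← zc, mul_assoc, zz, mul_one]
  have fo : ∀ k, Continuous (f k) := fun k => by
    refine continuous_induced_rng.2 (continuous_induced_rng.2 (continuous_pi fun x => ?_))
    refine cont (S0 k ∪ {x, swap 0 1 x}) _ fun g g' h => ?_
    have : chi P k g ↔ chi P k g' := by
      unfold chi
      rw [Finset.image_congr (g := g'.1) fun x hx => h x (Finset.mem_union_left _ hx)]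
    simp only [f, Function.comp, this]
    split_ifs
    · exact h x (by simp)
    · exact h (swap 0 1 x) (by simp)
  let α : ℕ → Aut (GP P) := fun k => ⟨⟨⟨f (k + 1), f (k + 1), ff _, ff _⟩, fm _⟩, fo _, fo _⟩
  have one : ∀ g : GP P, g.1 0 = 0 → g.1 1 = 1 := fun g h => by
    have a := g.2.1 1
    have : g.1 1 ≠ g.1 0 := g.1.injective.ne (by omega)
    omega
  refine crit _ ⟨MulAction.stabilizer (GP P) (0 : ℕ), (isOpen_discrete {0}).preimage
    (cont {0} (fun g : GP P => g.1 0) (by simp))⟩ (fun g n hn => ?_) α fun k l e => ?_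
  · change g.1 (n.1 (g.1⁻¹ 0)) = 0
    have a : n.1 0 = 0 := hn
    have b := one n a
    have c : 2 ≤ g.1⁻¹ 0 ↔ 2 ≤ 0 := (g⁻¹).2.1 0
    have : n.1 (g.1⁻¹ 0) = g.1⁻¹ 0 := by
      rcases (by omega : g.1⁻¹ 0 = 0 ∨ g.1⁻¹ 0 = 1) with d | d <;> rw [d] <;> assumption
    rw [this]; simp
  by_contra ne
  obtain ⟨g, g1, g2, g3⟩ := ext hP (· ≠ k + 1) (D := {0, 1}) (π := 1) (by simp) (by simp) rfl rfl
    fun S hS hS' => by
      have : S = ∅ := Finset.eq_empty_of_forall_notMem fun x hx => by
        have := hS' x hx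
        have := hS hx
        simp at this; omega
      simp [this]
  have a : g 0 = 0 := g2 0 (by simp)
  have : (⟨g, g1⟩ : GP P) ∈ (α l).1 '' (MulAction.stabilizer (GP P) (0 : ℕ)) :=
    ⟨⟨g, g1⟩, a, if_pos ((g3 _).2 (by omega))⟩
  obtain ⟨r, r1, r2⟩ := (Set.ext_iff.1 e _).2 this
  have r3 : r = ⟨g, g1⟩ * z := by
    rw [← ff (k + 1) r, show f (k + 1) r = _ from r2]
    exact if_neg fun h => (g3 _).1 h rfl
  have r4 : r.1 0 = 0 := r1
  rw [r3] at r4
  have := one ⟨g, g1⟩ a
  simp [z] at r4 this
  omega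

end Pool.Agent.Results.MP_94c136_al.NotCompact
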